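import Pool.Agent.R98.FL.Final
import Pool.Agent.R98.FL.Simple
import Pool.Agent.R98.FL.Cpt3
import Pool.Agent.R98.FL.A2b
import Pool.Agent.R98.FL.Inside
import Pool.Agent.R98.FL.B2
import Pool.Agent.R98.FL.Disj
import Pool.Agent.R98.FL.FanB4
import Pool.Agent.R98.FL.Glue
import Pool.Agent.R98.FL.Conc
import Pool.Agent.R98.FL.C234
import Pool.Agent.R98.FL.Apex
import Pool.Agent.R98.FL.Bdry
import Pool.Agent.R98.FL.C7
import Pool.Agent.R98.FL.Chain
import Pool.Agent.R98.FL.Ins
import Pool.Agent.R98.FL.GoodFan

/-!
# MP_fe41f2_co: flip distance after inserting few Steiner points in polygons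

Full answer to Q1 (negative): for every `k(n) = o(n)` and every constant `C` there are a simple polygon with `n`
vertices and two triangulations of it such that after every insertion of at most `k(n)` Steiner points the flip
distance is larger than `C n`.

`Pt` is the plane `ℝ × ℝ`. `IsPolygon v P`: the points `v 0, …, v (n-1)` are in this cyclic order the vertices
of a simple closed polygonal curve and `P` is the region bounded by it. A triangle is given by its set of three
vertices, `IsTriangulation P S T` is the notion of the problem. `Inserted P S T1 T2 m S' T1' T2'`: inserting `m`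
Steiner points one at a time into the pair `T1, T2` gives `T1', T2'` (with point set `S'`). `FlipReach P S' l T T'`:
there is a sequence of `l` flips from `T` to `T'` through triangulations of `(P, S')`.
-/

namespace Pool.Agent.Results.MP_fe41f2_co.FewSteinerPoints

open Pool.Agent.R98.FL Filter

theorem result (k : ℕ → ℝ) (hk : k =o[atTop] fun n : ℕ => (n : ℝ)) (C : ℝ) :
    ∃ (n : ℕ) (v : Fin n → Pt) (P : Set Pt) (T1 T2 : Finset (Finset Pt)),
      IsPolygon v P ∧ IsTriangulation P (Finset.univ.image v) T1 ∧
      IsTriangulation P (Finset.univ.image v) T2 ∧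
      ∀ (m : ℕ) (S' : Finset Pt) (T1' T2' : Finset (Finset Pt)), (m : ℝ) ≤ k n →
        Inserted P (Finset.univ.image v) T1 T2 m S' T1' T2' →
        ∀ l : ℕ, FlipReach P S' l T1' T2' → C * n < l := by
  have hA : FanAStmt := fanA_full inside cover disj
  have hK : ChordStmt := chord conc
  exact final simple cpt3 front vimg hA (fanB4 hA) glue conc
    (chain (flip1 (apex (noCross conc) hK) hK bdry)) (ins ins1) (goodFan conc) k hk C

end Pool.Agent.Results.MP_fe41f2_co.FewSteinerPoints
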